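import Pool.Agent.P.MP_e45b92_nt.EL.Main

set_option autoImplicit false

open Real Filter

namespace Pool.Agent.Results.MP_e45b92_nt.EffectiveWindow

/-- The system `(S_{ε,T})` has a solution. -/
def Solvable (α β ε T : ℝ) : Prop :=
  ∃ p r q : ℤ, 1 ≤ q ∧ (q : ℝ) ≤ T ∧ |p + q * α| * |r + q * β| < ε / T

/-- There are `κ > 0` and `L₀` such that for `L ≥ L₀` and every window ratio `Λ` with
`L ≤ Λ T ≤ T` for large `T`, the pairs for which, for an unbounded set of `T`, the system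
`(S_{ε,T₁})` with `ε = (log log Λ T)^(-κ)` has no solution for any `T₁` in `[T / Λ T, T]` form a
set of Hausdorff dimension at most `(log log L)^(-κ)`. -/
theorem result : ∃ κ L₀ : ℝ, 0 < κ ∧ ∀ L : ℝ, L₀ ≤ L → ∀ Λ : ℝ → ℝ,
    (∀ᶠ T in atTop, L ≤ Λ T ∧ Λ T ≤ T) →
    dimH {x : ℝ × ℝ | ∀ T₀ : ℝ, ∃ T : ℝ, T₀ < T ∧ ∀ T₁ : ℝ, T / Λ T ≤ T₁ → T₁ ≤ T →
      ¬ Solvable x.1 x.2 (log (log (Λ T)) ^ (-κ)) T₁} ≤ ENNReal.ofReal (log (log L) ^ (-κ)) :=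
  P.MP_e45b92_nt.EL92.quant_of_core P.MP_e45b92_nt.EL.f_core

end Pool.Agent.Results.MP_e45b92_nt.EffectiveWindow
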