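import Pool.Agent.P.MP_e45b92_nt.Dim

set_option autoImplicit false

open Set

namespace Pool.Agent.Results.MP_e45b92_nt.FullDimension

/-- The system `(S_{ε,T})` has a solution. -/
def Solvable (α β ε T : ℝ) : Prop :=
  ∃ p r q : ℤ, 1 ≤ q ∧ (q : ℝ) ≤ T ∧ |p + q * α| * |r + q * β| < ε / T

/-- Multiplicatively well approximable pairs. -/
def MWA (α β : ℝ) : Prop :=
  ∀ ε : ℝ, 0 < ε → ¬ BddAbove {T : ℝ | 0 < T ∧ Solvable α β ε T}

/-- Multiplicatively singular pairs. -/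
def MS (α β : ℝ) : Prop :=
  ∀ ε : ℝ, 0 < ε → ∃ T₀ : ℝ, 0 < T₀ ∧ ∀ T : ℝ, T₀ < T → Solvable α β ε T

open Pool.Agent.P.MP_e45b92_nt in
/-- For every nonempty open `U` and every nonempty set `Y` of irrational numbers, the pairs in
`U × Y` that are MWA but not MS form a set of Hausdorff dimension `1 + dim Y`. -/
theorem result (U Y : Set ℝ) (hU : IsOpen U) (hU' : U.Nonempty) (hY : ∀ β ∈ Y, Irrational β)
    (hY' : Y.Nonempty) :
    dimH {x : ℝ × ℝ | x.1 ∈ U ∧ x.2 ∈ Y ∧ MWA x.1 x.2 ∧ ¬ MS x.1 x.2} = 1 + dimH Y := by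
  refine le_antisymm ((dimH_mono fun x hx => ?_).trans (dim_prod_le Y))
    (dim_ge hU hU' hY hY' fun G β hβ x hx h => ⟨hx, hβ, ?_, ?_⟩)
  · exact ⟨trivial, hx.2.1⟩
  · rintro ε hε ⟨M, hM⟩
    obtain ⟨k, hk⟩ := exists_nat_gt (max M (1 / ε))
    obtain ⟨T, h1, p, r, q, h2, h3, h4⟩ := (h k).2
    push_cast at h1 h4
    have h5 : (0 : ℝ) ≤ k := by positivity
    have h6 : 1 / ((k : ℝ) + 1) ≤ ε := by
      have := (le_max_right _ _).trans_lt hk
      rw [div_lt_iff₀ hε] at this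
      rw [div_le_iff₀ (by linarith)]
      nlinarith
    have h7 : (0 : ℝ) < T := by linarith
    have := hM ⟨h7, p, r, q, h2, h3, h4.trans_le (by gcongr)⟩
    linarith [le_max_left M (1 / ε)]
  · intro hms
    obtain ⟨T₀, -, hT⟩ := hms (eps G) (by unfold eps; positivity)
    obtain ⟨k, hk⟩ := exists_nat_gt T₀
    obtain ⟨T, h1, h2⟩ := (h k).1
    exact h2 (hT T (hk.trans_le h1))

end Pool.Agent.Results.MP_e45b92_nt.FullDimension
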