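import Pool.Agent.P.MP_e45b92_nt.UlRed

set_option autoImplicit false

namespace Pool.Agent.Results.MP_e45b92_nt.UniformBound

/-- For every pair `(α, β)` and every `T ≥ 10000` the system `(S_{ε,T})` with `ε = 0.381983`
has a solution. -/
theorem result (α β T : ℝ) (hT : 10000 ≤ T) :
    ∃ p r q : ℤ, 1 ≤ q ∧ (q : ℝ) ≤ T ∧ |p + q * α| * |r + q * β| < 0.381983 / T :=
  Pool.Agent.P.MP_e45b92_nt.Ul.upper α β T hT

end Pool.Agent.Results.MP_e45b92_nt.UniformBound
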