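import Pool.Agent.P.MP_e45b92_nt.UG.All

set_option autoImplicit false

namespace Pool.Agent.Results.MP_e45b92_nt.UniformGallagher

/-- The system `(S_{ε,T})` has a solution. -/
def Solvable (α β ε T : ℝ) : Prop :=
  ∃ p r q : ℤ, 1 ≤ q ∧ (q : ℝ) ≤ T ∧ |p + q * α| * |r + q * β| < ε / T

/-- For almost every pair and `ε = c log log T / log T`: the system `(S_{ε,T})` is soluble for
all large `T` if `c > ζ(3)/4`, and insoluble for an unbounded set of `T` if `c < ζ(3)/4`. -/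
theorem result : ∀ᵐ z : ℝ × ℝ, ∀ c : ℝ,
    ((riemannZeta 3).re / 4 < c → ∃ T₀ : ℝ, ∀ T : ℝ, T₀ ≤ T →
      Solvable z.1 z.2 (c * Real.log (Real.log T) / Real.log T) T) ∧
    (c < (riemannZeta 3).re / 4 → ¬ BddAbove {T : ℝ | 0 < T ∧
      ¬ Solvable z.1 z.2 (c * Real.log (Real.log T) / Real.log T) T}) :=
  Pool.Agent.P.MP_e45b92_nt.UG.a_FINAL

end Pool.Agent.Results.MP_e45b92_nt.UniformGallagher
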